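import Pool.Agent.H97.HV.Targets3

/-!
# MP_e37c09_lc: the first case, regressive functions on small sets (row EQR, helper35)
-/

open Ordinal Cardinal Order Set
open scoped ZFSet

universe u

namespace Pool.Agent.H35.HV

open _root_.HD HD.PRK HD.HV Pool.Agent.H97.PRK

theorem clb_gt {K : Cardinal.{u}} (hK : ℵ₀ ≤ K) {δ : Ordinal.{u}} (hδ : δ < K.ord) :
    Clb K.ord (Ioi δ) := by
  refine ⟨fun a ha => ⟨succ (max a δ), (Cardinal.isSuccLimit_ord hK).succ_lt (max_lt ha hδ),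
    lt_succ_of_le (le_max_left _ _), mem_Ioi.2 (lt_succ_of_le (le_max_right _ _))⟩,
    fun x _ hx h => ?_⟩
  obtain ⟨z, hz, -, hz'⟩ := h 0 hx
  exact lt_trans hz' hz

theorem not_few {D : Cardinal.{u}} : ¬ Few D.ord (Iio D.ord) := by
  intro h
  have h1 := few_iff.1 h
  have h2 : #(Iio D.ord) = Cardinal.lift.{u + 1} D := by
    rw [Cardinal.mk_Iio_ordinal, Cardinal.card_ord]
  exact absurd h1 (by rw [h2]; exact lt_irrefl _)

/-- the function `{b} ↦ i` for `s b i` -/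
theorem od_single {s : Ordinal.{u} → Ordinal.{u} → Prop} (hs : DR s) (κ : Ordinal.{u}) :
    ∃ f, OD f ∧ (∀ x y, ZFSet.pair x y ∈ f → ∃ b i : Ordinal.{u}, x = {b.toZFSet} ∧
      y = i.toZFSet ∧ s b i) ∧
      ∀ b < κ, ∀ i < κ, s b i → ZFSet.pair {b.toZFSet} i.toZFSet ∈ f := by
  obtain ⟨Q, hQ, h⟩ := hs
  have hq : ∀ b i : Ordinal.{u}, Q (fun n => if n = 0 then b.toZFSet else i.toZFSet) ↔
      s b i := by
    intro b i
    have h3 := h (fun n => if n = 0 then b else i)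
    have e : ov (fun n => if n = 0 then b else i) =
        fun n => if n = 0 then b.toZFSet else i.toZFSet := by
      funext n
      show (if n = 0 then b else i).toZFSet = _
      split_ifs <;> rfl
    rw [e] at h3
    exact h3.symm
  have hβ : Gd (κ + ω + ω) := by
    refine ⟨Ordinal.isSuccLimit_add _ Ordinal.isSuccLimit_omega0, ?_⟩
    calc (ω : Ordinal.{u}) ≤ κ + ω := le_add_self
      _ < κ + ω + ω := by
        have h1 : (0 : Ordinal.{u}) < ω := Ordinal.omega0_pos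
        exact lt_add_of_pos_right _ h1
  have hKβ : κ < κ + ω + ω := by
    have h1 : (0 : Ordinal.{u}) < ω := Ordinal.omega0_pos
    exact (lt_add_of_pos_right _ h1).trans_le le_self_add
  refine ⟨ZFSet.sep (fun t => ∃ x b i, t = ZFSet.pair x i ∧ x = {b, b} ∧ b.IsOrdinal ∧
    i.IsOrdinal ∧ Q (fun n => if n = 0 then b else i)) (V_ (κ + ω + ω)), ?_, ?_, ?_⟩
  · refine Pool.Agent.H45.NF.od_sep (NF.od_V _) ?_
    refine DZ.ex (R := fun x v => ∃ b i, v 0 = ZFSet.pair x i ∧ x = {b, b} ∧ b.IsOrdinal ∧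
      i.IsOrdinal ∧ Q (fun n => if n = 0 then b else i)) ?_
    refine DZ.ex (R := fun b v => ∃ i, v 1 = ZFSet.pair (v 0) i ∧ v 0 = {b, b} ∧ b.IsOrdinal ∧
      i.IsOrdinal ∧ Q (fun n => if n = 0 then b else i)) ?_
    refine DZ.ex (R := fun i v => v 2 = ZFSet.pair (v 1) i ∧ v 1 = {v 0, v 0} ∧
      (v 0).IsOrdinal ∧ i.IsOrdinal ∧ Q (fun n => if n = 0 then v 0 else i)) ?_
    refine (loc_pair 3 2 0).dz.and ((loc_upair 2 1 1).dz.and ((DZ.ord 1).and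
      ((DZ.ord 0).and ?_)))
    refine (hQ.ren fun n => if n = 0 then 1 else 0).congr fun v => ?_
    have e : (fun n => if n = 0 then v (0 + 1) else v 0) =
        fun n => v (if n = 0 then 1 else 0) := by
      funext n
      split_ifs <;> rfl
    show Q (fun n => if n = 0 then v (0 + 1) else v 0) ↔ _
    rw [e]
  · intro x y hxy
    rw [ZFSet.mem_sep] at hxy
    obtain ⟨-, x', b, i, h1, h2, h3, h4, h5⟩ := hxy
    obtain ⟨rfl, rfl⟩ := ZFSet.pair_injective h1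
    obtain ⟨b, rfl⟩ := ord_of h3
    obtain ⟨i, rfl⟩ := ord_of h4
    refine ⟨b, i, ?_, rfl, (hq b i).1 h5⟩
    rw [h2, ZFSet.pair_eq_singleton]
  · intro b hb i hi hbi
    rw [ZFSet.mem_sep]
    refine ⟨hβ.pair (hβ.single (Gd.ord.2 (hb.trans hKβ))) (Gd.ord.2 (hi.trans hKβ)),
      {b.toZFSet}, b.toZFSet, i.toZFSet, rfl, ?_, ZFSet.isOrdinal_toZFSet _,
      ZFSet.isOrdinal_toZFSet _, (hq b i).2 hbi⟩
    rw [ZFSet.pair_eq_singleton]

theorem pf_EQR (h0 : T_PVA.{u}) (h1 : T_ATM.{u}) (h2 : T_NOM.{u}) : T_EQR.{u} := by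
  intro δ hδ hA K hK hδK γ hγ hR
  refine h2 δ hδ hA K hK hδK γ hγ.lim (h1 δ hδ K hK hδK ?_ γ hγ)
  obtain ⟨D, hD, hDr, hDs, hD0⟩ : ∃ D : Cardinal.{u}, δ = D.ord ∧ D.IsRegular ∧
      D.IsStrongLimit ∧ ℵ₀ < D := by
    obtain ⟨η, -, θ, j, h⟩ := HD.All.xa δ hδ 0
    exact HD.All.xb δ η θ j h
  have hω : ω < δ := by
    rw [hD, ← Cardinal.ord_aleph0]
    exact Cardinal.ord_lt_ord.2 hD0
  subst hD
  have hK0 : ℵ₀ < K := hD0.trans (Cardinal.ord_lt_ord.1 hδK)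
  intro s hs hdis hpos
  obtain ⟨f, hf, hf1, hf2⟩ := od_single hs K.ord
  have hfun : ∀ x y z, ZFSet.pair x y ∈ f → ZFSet.pair x z ∈ f → y = z := by
    intro x y z hxy hxz
    obtain ⟨b, i, rfl, rfl, h3⟩ := hf1 x y hxy
    obtain ⟨b', i', h4, rfl, h5⟩ := hf1 _ z hxz
    have h6 : b = b' := toZFSet_injective (ZFSet.singleton_injective h4)
    subst h6
    rw [hdis b i i' h3 h5]
  obtain ⟨C, hC, τ, hτ, e, he⟩ := hR ω hω le_rfl f (h0.1 γ f hγ.lim.bot_lt hf) hfun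
  refine not_few (D := D) ⟨τ, hτ, e, fun i hi => he i ?_⟩
  obtain ⟨b, hb, hbC, hbs, hbc⟩ := hpos i hi (C ∩ Ioi D.ord)
    (Pool.Agent.H54.CL.clb_inter hK0 hK hC (clb_gt hK0.le hδK))
  refine ⟨{b.toZFSet}, ⟨⟨_, ZFSet.mem_singleton.2 rfl⟩, fun z hz => ?_, fun _ => b,
    fun a ha => ⟨0, Ordinal.omega0_pos, ?_⟩⟩,
    hf2 b hb i ((show i < D.ord from hi).trans hδK) hbs, fun a ha => ?_⟩
  · rw [ZFSet.mem_singleton] at hz
    exact ⟨b, hb, hbC.1, le_of_eq hbc, hz⟩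
  · exact (toZFSet_injective (ZFSet.mem_singleton.1 ha)).symm
  · rw [toZFSet_injective (ZFSet.mem_singleton.1 ha)]
    exact (show i < D.ord from hi).trans hbC.2

end Pool.Agent.H35.HV
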